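import Mathlib

set_option autoImplicit false

namespace Pool.Agent.Results.MP_8b2777_lc.PrimePowers

open Finset Filter Topology

variable {N : ℕ}

/-- The integer `a 0 + a 1 * N + ... + a (n - 1) * N ^ (n - 1)`. -/
def val (a : ℕ → Fin N) (n : ℕ) : ℤ := ∑ i ∈ range n, ((a i : ℕ) : ℤ) * (N : ℤ) ^ i

/-- The sequence is eventually periodic. -/
def EvPer (a : ℕ → Fin N) : Prop := ∃ s T, 0 < T ∧ ∀ i ≥ s, a (i + T) = a i

/-- The `N`-adic integer with digits `a` equals `u / g`, where `g` is coprime to `N`. -/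
def Represents (a : ℕ → Fin N) (u g : ℤ) : Prop :=
  IsCoprime g N ∧ ∀ n, (N : ℤ) ^ n ∣ g * val a n - u

/-- The `N`-adic complexity of the first `n` terms of `a`. -/
noncomputable def lam (a : ℕ → Fin N) (n : ℕ) : ℝ :=
  sInf {r : ℝ | ∃ b : ℕ → Fin N, EvPer b ∧ (∀ i < n, b i = a i) ∧
    ∃ u g : ℤ, IsCoprime u g ∧ Represents b u g ∧ r = Real.logb N ((max |u| |g| : ℤ) : ℝ)}

/-- The set of accumulation points of the normalised complexity. -/
def T (a : ℕ → Fin N) : Set ℝ := {x | MapClusterPt x atTop fun n : ℕ => lam a n / n}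

def V (N n : ℕ) (A u g : ℤ) : Prop := IsCoprime g N ∧ (N : ℤ) ^ n ∣ g * A - u

noncomputable def mu (N n : ℕ) (A : ℤ) : ℤ :=
  (sInf {r : ℕ | ∃ u g, V N n A u g ∧ (r : ℤ) = max |u| |g|} : ℕ)

theorem mu_le {n : ℕ} {A u g : ℤ} (h : V N n A u g) : mu N n A ≤ max |u| |g| := by
  have e : ((max |u| |g|).toNat : ℤ) = max |u| |g| := Int.toNat_of_nonneg (by positivity)
  rw [← e, mu]
  exact Nat.cast_le.mpr (Nat.sInf_le ⟨u, g, h, e⟩)

theorem mu_spec (N n : ℕ) (A : ℤ) : ∃ u g, V N n A u g ∧ mu N n A = max |u| |g| :=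
  Nat.sInf_mem (s := {r : ℕ | ∃ u g, V N n A u g ∧ (r : ℤ) = max |u| |g|})
    ⟨(max |A| |1|).toNat, A, 1, ⟨isCoprime_one_left, by simp⟩,
      Int.toNat_of_nonneg (by positivity)⟩

theorem not_dvd (hN : 2 ≤ N) {g : ℤ} (h : IsCoprime g N) : ¬ (N : ℤ) ∣ g := fun h' => by
  have := Int.isUnit_iff.mp (h.isUnit_of_dvd' h' dvd_rfl)
  omega

theorem one_le_mu (hN : 2 ≤ N) (n : ℕ) (A : ℤ) : 1 ≤ mu N n A := by
  obtain ⟨u, g, h, e⟩ := mu_spec N n A
  have : g ≠ 0 := fun h' => not_dvd hN h.1 (h' ▸ dvd_zero _)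
  rw [e]
  exact le_max_of_le_right (Int.one_le_abs this)

theorem val_succ (a : ℕ → Fin N) (n : ℕ) :
    val a (n + 1) = val a n + ((a n : ℕ) : ℤ) * (N : ℤ) ^ n := sum_range_succ _ _

theorem val_dvd (a : ℕ → Fin N) {m n : ℕ} (h : m ≤ n) : (N : ℤ) ^ m ∣ val a n - val a m := by
  induction n, h using Nat.le_induction with
  | base => simp
  | succ n h ih =>
    rw [val_succ, add_sub_right_comm]
    exact ih.add ((pow_dvd_pow _ h).mul_left _)

theorem val_bd (a : ℕ → Fin N) (n : ℕ) : 0 ≤ val a n ∧ val a n < (N : ℤ) ^ n := by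
  induction n with
  | zero => simp [val]
  | succ n ih =>
    have h : ((a n : ℕ) : ℤ) + 1 ≤ N := by exact_mod_cast (a n).2
    have h0 : (0 : ℤ) ≤ ((a n : ℕ) : ℤ) := by positivity
    have : (0 : ℤ) ≤ (N : ℤ) ^ n := by positivity
    rw [val_succ, pow_succ]
    constructor <;> nlinarith

theorem V_mono (a : ℕ → Fin N) {m n : ℕ} (h : m ≤ n) {u g : ℤ} (hv : V N n (val a n) u g) :
    V N m (val a m) u g := by
  refine ⟨hv.1, ?_⟩
  have := ((pow_dvd_pow _ h).trans hv.2).sub ((val_dvd a h).mul_left g)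
  rwa [show g * val a n - u - g * (val a n - val a m) = g * val a m - u by ring] at this

theorem mu_mono (a : ℕ → Fin N) {m n : ℕ} (h : m ≤ n) : mu N m (val a m) ≤ mu N n (val a n) := by
  obtain ⟨u, g, h1, e⟩ := mu_spec N n (val a n)
  exact e ▸ mu_le (V_mono a h h1)

theorem mu_le_pow (hN : 2 ≤ N) (a : ℕ → Fin N) (n : ℕ) : mu N n (val a n) ≤ (N : ℤ) ^ n := by
  have h := val_bd a n
  refine (mu_le (u := val a n) (g := 1) ⟨isCoprime_one_left, by simp⟩).trans ?_
  rw [abs_of_nonneg h.1, abs_one]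
  exact max_le h.2.le (one_le_pow₀ (by omega))

theorem digit (hN : 2 ≤ N) (z : ℤ) : ∃ d : Fin N, (N : ℤ) ∣ ((d : ℕ) : ℤ) - z := by
  have h1 := Int.emod_nonneg z (show (N : ℤ) ≠ 0 by omega)
  have h2 := Int.emod_lt_of_pos z (show (0 : ℤ) < N by omega)
  refine ⟨⟨(z % N).toNat, by omega⟩, -(z / N), ?_⟩
  have := Int.emod_add_mul_ediv z N
  simp only [Int.toNat_of_nonneg h1]
  linarith

theorem follow (hN : 2 ≤ N) {n : ℕ} {A u g : ℤ} (h : V N n A u g) :
    ∃ d : Fin N, V N (n + 1) (A + ((d : ℕ) : ℤ) * (N : ℤ) ^ n) u g := by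
  obtain ⟨⟨x, y, e⟩, c, hc⟩ := h
  obtain ⟨d, k, hk⟩ := digit hN (-c * x)
  refine ⟨d, ⟨x, y, e⟩, c * y + g * k, ?_⟩
  linear_combination hc + g * (N : ℤ) ^ n * hk - c * (N : ℤ) ^ n * e

theorem digit_eq {g : ℤ} (h : IsCoprime g N) {d e : Fin N}
    (h1 : (N : ℤ) ∣ g * (((d : ℕ) : ℤ) - ((e : ℕ) : ℤ))) : d = e := by
  have h2 := h.symm.dvd_of_dvd_mul_left h1
  have := d.2
  have := e.2
  have := Int.eq_zero_of_abs_lt_dvd h2 (by rw [abs_lt]; omega)
  exact Fin.ext (by omega)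

theorem V_unique (hN : 2 ≤ N) {n : ℕ} {A u g : ℤ} {d e : Fin N}
    (h1 : V N (n + 1) (A + ((d : ℕ) : ℤ) * (N : ℤ) ^ n) u g)
    (h2 : V N (n + 1) (A + ((e : ℕ) : ℤ) * (N : ℤ) ^ n) u g) : d = e := by
  refine digit_eq h1.1 ?_
  have := h1.2.sub h2.2
  rw [show g * (A + ((d : ℕ) : ℤ) * (N : ℤ) ^ n) - u - (g * (A + ((e : ℕ) : ℤ) * (N : ℤ) ^ n) - u) =
    (N : ℤ) ^ n * (g * (((d : ℕ) : ℤ) - ((e : ℕ) : ℤ))) by ring, pow_succ] at this
  exact (mul_dvd_mul_iff_left (by positivity)).mp this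

theorem brk (hN : 2 ≤ N) (n : ℕ) (A u g : ℤ) :
    ∃ d : Fin N, ¬ V N (n + 1) (A + ((d : ℕ) : ℤ) * (N : ℤ) ^ n) u g := by
  by_contra h
  push Not at h
  have := V_unique hN (h ⟨0, by omega⟩) (h ⟨1, by omega⟩)
  simp at this

theorem jump (a : ℕ → Fin N) {n : ℕ} {u g : ℤ} (h1 : V N n (val a n) u g)
    (h2 : ¬ V N (n + 1) (val a (n + 1)) u g) :
    (N : ℤ) ^ n ≤ 2 * max |u| |g| * mu N (n + 1) (val a (n + 1)) := by
  obtain ⟨u', g', h3, e⟩ := mu_spec N (n + 1) (val a (n + 1))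
  have h4 := V_mono a (Nat.le_succ n) h3
  have d1 : (N : ℤ) ^ n ∣ u * g' - u' * g := by
    have := (h4.2.mul_left g).sub (h1.2.mul_left g')
    rwa [show g * (g' * val a n - u') - g' * (g * val a n - u) = u * g' - u' * g by ring] at this
  have d2 : u * g' - u' * g ≠ 0 := fun h => h2 ⟨h1.1, by
    refine (h3.1.symm.pow_left).dvd_of_dvd_mul_left ?_
    rw [show g' * (g * val a (n + 1) - u) = g * (g' * val a (n + 1) - u') by linear_combination -h]
    exact h3.2.mul_left g⟩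
  refine (Int.le_of_dvd (abs_pos.mpr d2) ((dvd_abs _ _).mpr d1)).trans ((abs_sub _ _).trans ?_)
  rw [e, abs_mul, abs_mul]
  have a1 := mul_le_mul (le_max_left |u| |g|) (le_max_right |u'| |g'|) (abs_nonneg _)
    (by positivity)
  have a2 := mul_le_mul (le_max_right |u| |g|) (le_max_left |u'| |g'|) (abs_nonneg _)
    (by positivity)
  linarith

theorem build (r : ℕ → ℤ → Fin N) : ∃ a : ℕ → Fin N, ∀ n, a n = r n (val a n) := by
  obtain ⟨W, W0, W1⟩ : ∃ W : ℕ → ℤ, W 0 = 0 ∧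
      ∀ n, W (n + 1) = W n + ((r n (W n) : ℕ) : ℤ) * (N : ℤ) ^ n :=
    ⟨fun n => Nat.rec 0 (fun n w => w + ((r n w : ℕ) : ℤ) * (N : ℤ) ^ n) n, rfl, fun _ => rfl⟩
  have : ∀ n, val (fun n => r n (W n)) n = W n := fun n => by
    induction n with
    | zero => simp [val, W0]
    | succ n ih => rw [val_succ, ih, W1]
  exact ⟨fun n => r n (W n), fun n => by rw [this]⟩

theorem evper_of_rep (hN : 2 ≤ N) {b : ℕ → Fin N} {u g : ℤ} (h : Represents b u g) : EvPer b := by
  choose c hc using h.2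
  have pos : ∀ n, (0 : ℤ) < (N : ℤ) ^ n := fun n => by positivity
  have r1 : ∀ m, N * c (m + 1) = c m + g * ((b m : ℕ) : ℤ) := fun m => by
    refine mul_left_cancel₀ (pos m).ne' ?_
    have := hc (m + 1)
    rw [val_succ] at this
    linear_combination hc m - this
  have r2 : ∀ m, c m ∈ Set.Icc (-(|u| + |g|)) (|u| + |g|) := fun m => by
    refine abs_le.mp (le_of_mul_le_mul_left ?_ (pos m))
    have h1 := val_bd b m
    have h2 : |(N : ℤ) ^ m * c m| ≤ |g * val b m| + |u| := hc m ▸ abs_sub _ _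
    rw [abs_mul, abs_mul, abs_of_pos (pos m), abs_of_nonneg h1.1] at h2
    have := pos m
    nlinarith [abs_nonneg u, abs_nonneg g]
  obtain ⟨i, j, hij, e⟩ := (Set.finite_Icc _ _).exists_lt_map_eq_of_forall_mem r2
  have r3 : ∀ i j, c i = c j → b i = b j := fun i j e =>
    digit_eq h.1 ⟨c (i + 1) - c (j + 1), by linear_combination r1 j - r1 i - e⟩
  have r4 : ∀ t, c (i + t) = c (j + t) := fun t => by
    induction t with
    | zero => exact e
    | succ t ih =>
      refine mul_left_cancel₀ (show (N : ℤ) ≠ 0 by omega) ?_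
      rw [← add_assoc, ← add_assoc, r1, r1, ih, r3 _ _ ih]
  refine ⟨i, j - i, by omega, fun k hk => ?_⟩
  have := r3 _ _ (r4 (k - i))
  rw [show i + (k - i) = k by omega, show j + (k - i) = k + (j - i) by omega] at this
  exact this.symm

theorem rep_of_evper {a : ℕ → Fin N} (h : EvPer a) : ∃ u g, Represents a u g := by
  obtain ⟨s, t, ht, h⟩ := h
  have c : IsCoprime (1 - (N : ℤ) ^ t) N := by
    obtain ⟨t, rfl⟩ : ∃ k, t = k + 1 := ⟨t - 1, by omega⟩
    exact ⟨1, N ^ t, by ring⟩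
  have h1 : ∀ m ≥ s, val a (m + t) = val a (s + t) + N ^ t * (val a m - val a s) := fun m hm => by
    induction m, hm using Nat.le_induction with
    | base => simp
    | succ m hm ih => rw [add_right_comm, val_succ, val_succ, ih, h m hm]; ring
  refine ⟨val a (s + t) - N ^ t * val a s, 1 - N ^ t, c, fun n => ?_⟩
  refine (V_mono a (le_max_left n s) ⟨c, ?_⟩).2
  have := (val_dvd a (Nat.le_add_right (max n s) t)).neg_right
  rw [h1 _ (le_max_right n s)] at this
  exact (congrArg _ (by ring)).mp this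

theorem lam_eq (hN : 2 ≤ N) (a : ℕ → Fin N) (n : ℕ) :
    lam a n = Real.logb N (mu N n (val a n)) := by
  classical
  have b1 : (1 : ℝ) < N := by exact_mod_cast hN
  have m0 : (0 : ℝ) < mu N n (val a n) := by
    have := one_le_mu hN n (val a n)
    exact_mod_cast (by omega : 0 < mu N n (val a n))
  have ve : ∀ b : ℕ → Fin N, (∀ i < n, b i = a i) → val b n = val a n := fun b hb =>
    sum_congr rfl fun i hi => by rw [hb i (mem_range.mp hi)]
  refine IsLeast.csInf_eq ⟨?_, ?_⟩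
  · obtain ⟨u0, g0, h, e⟩ := mu_spec N n (val a n)
    have g0' : g0 ≠ 0 := fun h' => not_dvd hN h.1 (h' ▸ dvd_zero _)
    obtain ⟨d, u, g, hd, hc, rfl, rfl⟩ := Int.exists_gcd_one' (Int.gcd_pos_of_ne_zero_right u0 g0')
    have hv : V N n (val a n) u g := ⟨h.1.of_mul_left_left, by
      refine (h.1.of_mul_left_right.symm.pow_left).dvd_of_dvd_mul_left ?_
      exact (congrArg _ (by ring)).mp h.2⟩
    have e' : mu N n (val a n) = max |u| |g| := by
      refine le_antisymm (mu_le hv) ?_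
      have d1 : (1 : ℤ) ≤ |(d : ℤ)| := Int.one_le_abs (by omega)
      rw [e, abs_mul, abs_mul]
      exact max_le_max (le_mul_of_one_le_right (abs_nonneg _) d1)
        (le_mul_of_one_le_right (abs_nonneg _) d1)
    choose F hF using fun (m : ℕ) (A : ℤ) (h : V N m A u g) => follow hN h
    obtain ⟨b, hb⟩ := build fun m A => if h : V N m A u g ∧ n ≤ m then F m A h.1 else a m
    have b2 : ∀ i < n, b i = a i := fun i hi => by rw [hb, dif_neg (by omega)]
    have b3 : ∀ m ≥ n, V N m (val b m) u g := fun m hm => by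
      induction m, hm using Nat.le_induction with
      | base => rw [ve b b2]; exact hv
      | succ m hm ih => rw [val_succ, hb, dif_pos ⟨ih, hm⟩]; exact hF _ _ _
    have b4 : Represents b u g :=
      ⟨hv.1, fun m => (V_mono b (le_max_left m n) (b3 _ (le_max_right m n))).2⟩
    exact ⟨b, evper_of_rep hN b4, b2, u, g, Int.isCoprime_iff_gcd_eq_one.mpr hc, b4, by rw [e']⟩
  · rintro _ ⟨b, -, hb, u, g, -, h, rfl⟩
    refine Real.logb_le_logb_of_le b1 m0 ?_
    exact_mod_cast mu_le ⟨h.1, ve b hb ▸ h.2 n⟩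

theorem short (hN : 2 ≤ N) (n : ℕ) (A : ℤ) : ∃ u g S : ℤ, S ^ 2 ≤ (N : ℤ) ^ n ∧ |u| ≤ S ∧ |g| ≤ S ∧
    (u ≠ 0 ∨ g ≠ 0) ∧ (N : ℤ) ^ n ∣ g * A - u := by
  have hM : (0 : ℤ) < (N : ℤ) ^ n := by positivity
  obtain ⟨p, hp, q, hq, hne, e⟩ := exists_ne_map_eq_of_card_lt_of_maps_to
    (s := range ((N ^ n).sqrt + 1) ×ˢ range ((N ^ n).sqrt + 1)) (t := Ico (0 : ℤ) ((N : ℤ) ^ n))
    (f := fun p : ℕ × ℕ => ((p.2 : ℤ) * A - p.1) % (N : ℤ) ^ n)
    (by
      rw [Int.card_Ico, card_product, card_range, sub_zero, ← Nat.cast_pow, Int.toNat_natCast]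
      exact Nat.lt_succ_sqrt (N ^ n))
    (fun p _ => by
      simp only [coe_Ico, Set.mem_Ico]
      exact ⟨Int.emod_nonneg _ hM.ne', Int.emod_lt_of_pos _ hM⟩)
  simp only [mem_product, mem_range] at hp hq
  refine ⟨(p.1 : ℤ) - q.1, (p.2 : ℤ) - q.2, (N ^ n).sqrt, by exact_mod_cast Nat.sqrt_le' _,
    by rw [abs_le]; omega, by rw [abs_le]; omega, ?_, ?_⟩
  · by_contra h
    exact hne (Prod.ext (by omega) (by omega))
  · exact (congrArg _ (by ring)).mp (Int.ModEq.dvd (Eq.symm e))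

theorem reduce {u g x w M : ℤ} (hg : g ≠ 0) (h : |u| ≤ |g|) (hM : 0 ≤ M)
    (e : |w * g - u * x| = M) :
    ∃ t, max |w - t * u| |x - t * g| * |g| ≤ |g| ^ 2 + M := by
  have h1 := Int.emod_nonneg x hg
  have h2 := Int.emod_lt_abs x hg
  have h3 : x - x / g * g = x % g := by have := Int.emod_add_mul_ediv x g; linarith
  refine ⟨x / g, ?_⟩
  rw [h3, abs_of_nonneg h1, max_mul_of_nonneg _ _ (abs_nonneg g), ← abs_mul,
    show (w - x / g * u) * g = w * g - u * x + u * (x % g) by rw [← h3]; ring]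
  refine max_le ((abs_add_le _ _).trans ?_) (by nlinarith)
  rw [e, abs_mul, abs_of_nonneg h1]
  nlinarith [abs_nonneg u]

theorem upper (hN : IsPrimePow N) (a : ℕ → Fin N) {n : ℕ} (hn : 1 ≤ n) :
    ∃ m ≤ n, ∃ S : ℤ, S ^ 2 ≤ (N : ℤ) ^ n ∧
      (mu N n (val a n) - S) * mu N m (val a m) ≤ (N : ℤ) ^ (m + 1) := by
  have h2 := hN.two_le
  obtain ⟨u0, g0, S, s1, s2, s3, s4, α0, s5⟩ := short h2 n (val a n)
  have hM : (2 : ℤ) ≤ (N : ℤ) ^ n :=
    le_trans (by exact_mod_cast h2) (le_self_pow₀ (by omega) (by omega))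
  have S0 : 0 ≤ S := (abs_nonneg _).trans s2
  have SM : S < (N : ℤ) ^ n := by nlinarith
  by_cases hS : mu N n (val a n) ≤ S
  · refine ⟨0, by omega, S, s1, le_trans (mul_nonpos_of_nonpos_of_nonneg (by omega) ?_) ?_⟩
    · have := one_le_mu h2 0 (val a 0); omega
    · positivity
  have g0' : g0 ≠ 0 := by
    rintro rfl
    have := Int.eq_zero_of_abs_lt_dvd (m := (N : ℤ) ^ n) (x := u0) ⟨-α0, by linarith⟩ (by omega)
    omega
  obtain ⟨d, α, g, hd, hc, rfl, rfl⟩ := Int.exists_gcd_one' (Int.gcd_pos_of_ne_zero_right α0 g0')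
  obtain ⟨u, hu⟩ : ∃ u, g * val a n - u = (N : ℤ) ^ n * α := ⟨_, sub_sub_cancel _ _⟩
  have d1 : (1 : ℤ) ≤ |(d : ℤ)| := Int.one_le_abs (by omega)
  rw [show u0 = u * d by linear_combination d * hu - s5, abs_mul] at s2
  rw [abs_mul] at s3
  have uS : max |u| |g| ≤ S := max_le ((le_mul_of_one_le_right (abs_nonneg _) d1).trans s2)
    ((le_mul_of_one_le_right (abs_nonneg _) d1).trans s3)
  have g1 : g ≠ 0 := left_ne_zero_of_mul g0'
  obtain ⟨p, k, hp, hk, hpk⟩ := (isPrimePow_nat_iff N).mp hN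
  have hp' := Nat.prime_iff_prime_int.mp hp
  have eN : (N : ℤ) = (p : ℤ) ^ k := by rw [← hpk]; push_cast; rfl
  have cop : ∀ z : ℤ, ¬ (p : ℤ) ∣ z → IsCoprime z N := fun z hz =>
    eN ▸ (hp'.irreducible.coprime_iff_not_dvd.mpr hz).symm.pow_right
  have pg : (p : ℤ) ∣ g := by
    by_contra h
    exact hS ((mu_le ⟨cop g h, α, hu⟩).trans uS)
  obtain ⟨x, y, e⟩ := Int.isCoprime_iff_gcd_eq_one.mpr hc
  have k1 : mu N n (val a n) * max |u| |g| ≤ max |u| |g| ^ 2 + (N : ℤ) ^ n := by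
    have e1 : (x * val a n + N ^ n * y) * g - u * x = (N : ℤ) ^ n := by
      linear_combination x * hu + N ^ n * e
    have v : ∀ t, mu N n (val a n) ≤ max |x * val a n + N ^ n * y - t * u| |x - t * g| :=
      fun t => mu_le ⟨cop _ fun h => hp'.not_dvd_one (by
        have h1 : (p : ℤ) ∣ x := by simpa using h.add (pg.mul_left t)
        exact e ▸ (h1.mul_right α).add (pg.mul_left y)), -y - t * α, by
          linear_combination -t * hu⟩
    rcases le_total |u| |g| with h | h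
    · obtain ⟨t, ht⟩ := reduce (w := x * val a n + N ^ n * y) (x := x) (M := (N : ℤ) ^ n) g1 h
        (by omega) (by rw [e1, abs_of_pos (by omega)])
      rw [max_eq_right h]
      exact (mul_le_mul_of_nonneg_right (v t) (abs_nonneg _)).trans ht
    · obtain ⟨t, ht⟩ := reduce (x := x * val a n + N ^ n * y) (w := x) (M := (N : ℤ) ^ n)
        (abs_pos.mp ((abs_pos.mpr g1).trans_le h)) h (by omega)
        (by rw [abs_sub_comm, mul_comm g, mul_comm x u, e1, abs_of_pos (by omega)])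
      rw [max_comm] at ht
      rw [max_eq_left h]
      exact (mul_le_mul_of_nonneg_right (v t) (abs_nonneg _)).trans ht
  have p2 : (1 : ℤ) < p := by exact_mod_cast hp.one_lt
  obtain ⟨j, g', j1, j2⟩ := WfDvdMonoid.max_power_factor g1 hp'.irreducible
  have pj : (0 : ℤ) < (p : ℤ) ^ j := by positivity
  have j3 : j ≤ k * n := by
    refine (pow_le_pow_iff_right₀ p2).mp ?_
    rw [pow_mul, ← eN]
    have := Int.le_of_dvd (abs_pos.mpr g1) ((dvd_abs _ _).mpr ⟨g', j2⟩)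
    have := le_max_right |u| |g|
    omega
  obtain ⟨r, hr⟩ := Nat.exists_eq_add_of_le j3
  have eP : (N : ℤ) ^ n = p ^ j * p ^ r := by rw [eN, ← pow_mul, hr, pow_add]
  have r1 := Nat.div_add_mod r k
  have r2 := Nat.mod_lt r hk
  have r3 : r / k ≤ n := Nat.div_le_of_le_mul (by omega)
  have k2 : mu N (r / k) (val a (r / k)) * p ^ j ≤ max |u| |g| := by
    have h1 : (N : ℤ) ^ (r / k) ∣ p ^ r := by
      rw [eN, ← pow_mul]; exact pow_dvd_pow _ (by omega)
    have h3 : V N (r / k) (val a (r / k)) (g' * val a n - p ^ r * α) g' := ⟨cop _ j1,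
      (congrArg _ (by ring)).mp ((h1.mul_right α).sub ((val_dvd a r3).mul_left g'))⟩
    refine (mul_le_mul_of_nonneg_right (mu_le h3) pj.le).trans (le_of_eq ?_)
    rw [show u = (g' * val a n - p ^ r * α) * p ^ j by
      linear_combination -hu + val a n * j2 - α * eP, j2, mul_comm _ g', abs_mul, abs_mul,
      abs_of_pos pj, max_mul_of_nonneg _ _ pj.le]
  have k3 : (p : ℤ) ^ r ≤ (N : ℤ) ^ (r / k + 1) := by
    rw [eN, ← pow_mul]
    exact pow_le_pow_right₀ p2.le (by rw [mul_add]; omega)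
  refine ⟨r / k, r3, S, s1, le_trans (le_of_mul_le_mul_right ?_ pj) k3⟩
  have := mul_le_mul_of_nonneg_left k2 (show 0 ≤ mu N n (val a n) - S by omega)
  have := mul_le_mul_of_nonneg_left uS (show 0 ≤ max |u| |g| by positivity)
  linarith

theorem cluster (x : ℕ → ℝ) (B C : ℝ) (hx : ∀ n, x n - 1 / (n + 1) ≤ x (n + 1))
    (b1 : ∀ ε > 0, ∀ᶠ n in atTop, B - ε < x n) (b2 : ∀ ε > 0, ∃ᶠ n in atTop, x n < B + ε)
    (c1 : ∀ ε > 0, ∀ᶠ n in atTop, x n < C + ε) (c2 : ∀ ε > 0, ∃ᶠ n in atTop, C - ε < x n) :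
    {y | MapClusterPt y atTop x} = Set.Icc B C := by
  classical
  ext y
  simp only [Set.mem_ofPred_eq, Set.mem_Icc, mapClusterPt_iff_frequently]
  constructor
  · intro h
    constructor <;> by_contra hc <;> push Not at hc
    · obtain ⟨n, h1, h2⟩ := ((h _ (Iio_mem_nhds (show y < B - (B - y) / 2 by linarith))).and_eventually
        (b1 ((B - y) / 2) (by linarith))).exists
      exact lt_asymm h1 h2
    · obtain ⟨n, h1, h2⟩ := ((h _ (Ioi_mem_nhds (show C + (y - C) / 2 < y by linarith))).and_eventually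
        (c1 ((y - C) / 2) (by linarith))).exists
      exact lt_asymm h1 h2
  · rintro ⟨h1, h2⟩ s hs
    obtain ⟨ε, hε, h⟩ := Metric.mem_nhds_iff.mp hs
    refine frequently_atTop.mpr fun n0 => ?_
    obtain ⟨k, hk⟩ := exists_nat_one_div_lt hε
    obtain ⟨n1, h3, h4⟩ := frequently_atTop.mp (c2 ε hε) (max n0 k)
    have ex : ∃ n, n1 ≤ n ∧ x n < y + ε := by
      obtain ⟨n, h5, h6⟩ := frequently_atTop.mp (b2 ε hε) n1
      exact ⟨n, h5, by linarith⟩
    obtain ⟨h5, h6⟩ := Nat.find_spec ex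
    refine ⟨Nat.find ex, by omega, h ?_⟩
    rw [Metric.mem_ball, Real.dist_eq, abs_lt]
    refine ⟨?_, by linarith⟩
    rcases h5.eq_or_lt with e | e
    · rw [← e]; linarith
    · obtain ⟨m, hm⟩ : ∃ m, Nat.find ex = m + 1 := ⟨Nat.find ex - 1, by omega⟩
      have h7 := Nat.find_min ex (m := m) (by omega)
      have h8 : y + ε ≤ x m := not_lt.mp fun h => h7 ⟨by omega, h⟩
      have h9 : (1 : ℝ) / (m + 1) ≤ 1 / (k + 1) := one_div_le_one_div_of_le (by positivity)
        (by exact_mod_cast (by omega : k + 1 ≤ m + 1))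
      have := hx m
      rw [hm]
      linarith

noncomputable def ll (a : ℕ → Fin N) (n : ℕ) : ℝ := Real.logb N (mu N n (val a n))

theorem mu_pos (hN : 2 ≤ N) (n : ℕ) (A : ℤ) : (1 : ℝ) ≤ mu N n A := by
  exact_mod_cast one_le_mu hN n A

theorem ll_nonneg (hN : 2 ≤ N) (a : ℕ → Fin N) (n : ℕ) : 0 ≤ ll a n :=
  Real.logb_nonneg (by exact_mod_cast hN) (mu_pos hN _ _)

theorem ll_mono (hN : 2 ≤ N) (a : ℕ → Fin N) {m n : ℕ} (h : m ≤ n) : ll a m ≤ ll a n :=
  Real.logb_le_logb_of_le (by exact_mod_cast hN) (one_pos.trans_le (mu_pos hN _ _))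
    (by exact_mod_cast mu_mono a h)

theorem ll_le (hN : 2 ≤ N) (a : ℕ → Fin N) (n : ℕ) : ll a n ≤ n := by
  rw [ll, Real.logb_le_iff_le_rpow (by exact_mod_cast hN) (one_pos.trans_le (mu_pos hN _ _)),
    Real.rpow_natCast]
  exact_mod_cast mu_le_pow hN a n

theorem ll_jump (hN : 2 ≤ N) (a : ℕ → Fin N) {n : ℕ} {u g : ℤ} (h1 : V N n (val a n) u g)
    (h2 : ¬ V N (n + 1) (val a (n + 1)) u g) (h3 : max |u| |g| ≤ mu N n (val a n)) :
    (n : ℝ) - 1 ≤ ll a n + ll a (n + 1) := by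
  have b1 : (1 : ℝ) < N := by exact_mod_cast hN
  have m1 := mu_pos hN n (val a n)
  have m2 := mu_pos hN (n + 1) (val a (n + 1))
  have h4 : (N : ℤ) ^ n ≤ N * (mu N n (val a n) * mu N (n + 1) (val a (n + 1))) := by
    have := one_le_mu hN (n + 1) (val a (n + 1))
    have := one_le_mu hN n (val a n)
    refine (jump a h1 h2).trans ?_
    rw [← mul_assoc]
    exact mul_le_mul_of_nonneg_right (mul_le_mul (by omega) h3 (by positivity) (by omega))
      (by omega)
  rw [ll, ll, ← Real.logb_mul (by linarith) (by linarith),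
    Real.le_logb_iff_rpow_le b1 (by positivity), Real.rpow_sub_one (by positivity),
    Real.rpow_natCast, div_le_iff₀' (by positivity)]
  exact_mod_cast h4

theorem T_eq (hN : 2 ≤ N) (a : ℕ → Fin N) :
    T a = {x | MapClusterPt x atTop fun n : ℕ => ll a n / n} := by
  simp only [T, lam_eq hN, ll]

theorem big (c : ℝ) {ε : ℝ} (h : 0 < ε) : ∀ᶠ n : ℕ in atTop, c < ε * n :=
  (tendsto_natCast_atTop_atTop.const_mul_atTop h).eventually_gt_atTop c

theorem general (hN : IsPrimePow N) (a : ℕ → Fin N) (ha : ∀ u g, ¬ Represents a u g) (B : ℝ)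
    (b1 : ∀ ε > 0, ∀ᶠ n : ℕ in atTop, B - ε < ll a n / n)
    (b2 : ∀ ε > 0, ∃ᶠ n : ℕ in atTop, ll a n / n < B + ε) : T a = Set.Icc B (1 - B) := by
  classical
  have h2 := hN.two_le
  have n1 : (1 : ℝ) < N := by exact_mod_cast h2
  have B0 : 0 ≤ B := le_of_forall_pos_le_add fun ε hε => by
    obtain ⟨n, hn⟩ := (b2 ε hε).exists
    have := ll_nonneg h2 a n
    exact le_trans (by positivity) hn.le
  have c1 : ∀ ε > 0, ∀ᶠ n : ℕ in atTop, ll a n / n < max (1 / 2) (1 - B) + ε := fun ε hε => by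
    obtain ⟨m0, hm0⟩ := eventually_atTop.mp ((b1 (ε / 2) (by positivity)).and
      (eventually_gt_atTop 0))
    filter_upwards [big (m0 + 2) (half_pos hε), eventually_ge_atTop 1] with n h3 h4
    obtain ⟨m, hm, S, s1, s2⟩ := upper hN a h4
    have n0 : (0 : ℝ) < n := by exact_mod_cast h4
    have hm' : (m : ℝ) ≤ n := by exact_mod_cast hm
    have C1 := le_max_left (1 / 2) (1 - B)
    have C2 := le_max_right (1 / 2) (1 - B)
    generalize max (1 / 2) (1 - B) = C at C1 C2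
    have m0' : (0 : ℝ) ≤ m0 := by positivity
    have t1 : (S : ℝ) ≤ (N : ℝ) ^ (m0 + 1 + n * (C + ε / 2)) := by
      refine le_trans ?_ (Real.rpow_le_rpow_of_exponent_le (y := n / 2) n1.le (by nlinarith))
      refine le_trans (le_abs_self _) (abs_le_of_sq_le_sq (b := (N : ℝ) ^ ((n : ℝ) / 2)) ?_
        (by positivity))
      rw [← Real.rpow_natCast ((N : ℝ) ^ ((n : ℝ) / 2)), ← Real.rpow_mul (by positivity)]
      simp only [Nat.cast_ofNat, ne_eq, OfNat.ofNat_ne_zero, not_false_eq_true, div_mul_cancel₀,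
        Real.rpow_natCast]
      exact_mod_cast s1
    have t2 : (mu N n (val a n) : ℝ) - S ≤ (N : ℝ) ^ (m0 + 1 + n * (C + ε / 2)) := by
      have m1 := mu_pos h2 m (val a m)
      have s3 : ((mu N n (val a n) : ℝ) - S) * (N : ℝ) ^ ll a m ≤ (N : ℝ) ^ ((m : ℝ) + 1) := by
        rw [ll, Real.rpow_logb (by positivity) n1.ne' (by linarith), ← Nat.cast_succ,
          Real.rpow_natCast]
        exact_mod_cast s2
      rw [← le_div_iff₀ (by positivity), ← Real.rpow_sub (by positivity)] at s3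
      refine s3.trans (Real.rpow_le_rpow_of_exponent_le n1.le ?_)
      rcases le_or_gt m0 m with h | h
      · obtain ⟨h5, h6⟩ := hm0 m h
        rw [lt_div_iff₀ (by exact_mod_cast h6)] at h5
        have : (0 : ℝ) ≤ m := by positivity
        nlinarith
      · have : (m : ℝ) ≤ m0 := by exact_mod_cast h.le
        have := ll_nonneg h2 a m
        nlinarith
    have t3 : ll a n ≤ m0 + 1 + n * (C + ε / 2) + 1 := by
      rw [ll, Real.logb_le_iff_le_rpow n1 (one_pos.trans_le (mu_pos h2 _ _)),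
        Real.rpow_add_one (by positivity)]
      have : (2 : ℝ) ≤ N := by exact_mod_cast h2
      have : (0 : ℝ) ≤ (N : ℝ) ^ (m0 + 1 + n * (C + ε / 2)) := by positivity
      nlinarith
    rw [div_lt_iff₀ n0]
    linarith
  have B1 : B ≤ 1 / 2 := by
    by_contra h
    obtain ⟨n, h3, h4⟩ := ((b1 ((B - 1 / 2) / 2) (by linarith)).and
      (c1 ((B - 1 / 2) / 2) (by linarith))).exists
    rw [max_eq_left (by linarith)] at h4
    linarith
  rw [max_eq_right (by linarith)] at c1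
  rw [T_eq h2]
  refine cluster _ _ _ (fun n => ?_) b1 b2 c1 fun ε hε => frequently_atTop.mpr fun n0 => ?_
  · have h3 := ll_mono h2 a (Nat.le_succ n)
    have h4 : ll a n / n * n ≤ ll a n := by
      rcases Nat.eq_zero_or_pos n with rfl | h
      · simpa using ll_nonneg h2 a 0
      · rw [div_mul_cancel₀ _ (by positivity)]
    have h5 : ll a n / n ≤ 1 := div_le_one_of_le₀ (ll_le h2 a n) (by positivity)
    push_cast
    rw [le_div_iff₀ (by positivity), sub_mul, div_mul_cancel₀ _ (by positivity)]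
    linarith
  · obtain ⟨n, ⟨h3, h4⟩, h5⟩ := (((b2 (ε / 2) (half_pos hε)).and_eventually
      (big 2 (half_pos hε))).and_eventually (eventually_ge_atTop (max n0 1))).exists
    obtain ⟨u, g, h6, h7⟩ := mu_spec N n (val a n)
    have ex : ∃ m, ¬ V N m (val a m) u g := by
      by_contra h
      push Not at h
      exact ha u g ⟨h6.1, fun m => (h m).2⟩
    have e1 := Nat.find_spec ex
    have e2 : n < Nat.find ex := not_le.mp fun h => e1 (V_mono a h h6)
    obtain ⟨m, hm⟩ : ∃ m, Nat.find ex = m + 1 := ⟨Nat.find ex - 1, by omega⟩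
    have e3 := not_not.mp (Nat.find_min ex (m := m) (by omega))
    rw [hm] at e1 e2
    have e4 := mu_mono a (show n ≤ m by omega)
    have e5 := ll_jump h2 a e3 e1 (h7 ▸ e4)
    have e6 : ll a m = ll a n := by rw [ll, ll, le_antisymm (h7 ▸ mu_le e3) e4]
    have e7 : (n : ℝ) ≤ m := by exact_mod_cast (show n ≤ m by omega)
    rw [div_lt_iff₀ (by exact_mod_cast (show 0 < n by omega))] at h3
    refine ⟨m + 1, by omega, ?_⟩
    push_cast
    rw [lt_div_iff₀ (by positivity)]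
    nlinarith

theorem construct (hN : IsPrimePow N) {B : ℝ} (B0 : 0 ≤ B) (B1 : B ≤ 1 / 2) (ω : Set ℕ) :
    ∃ a : ℕ → Fin N, T a = Set.Icc B (1 - B) ∧ ∀ k, (a (2 ^ 2 ^ k) : ℕ) = 1 ↔ k ∈ ω := by
  classical
  have h2 := hN.two_le
  choose U G h1 h3 using mu_spec N
  choose fo hfo using fun n A => follow h2 (h1 n A)
  choose br hbr using fun n A => brk h2 n A (U n A) (G n A)
  obtain ⟨a, ha⟩ := build (N := N) fun n A => if ∃ k, n = 2 ^ 2 ^ k then
    (if ∃ k ∈ ω, n = 2 ^ 2 ^ k then ⟨1, by omega⟩ else ⟨0, by omega⟩) else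
    if Real.logb N (mu N n A) ≤ B * n + 2 * √(n + 1) then br n A else fo n A
  have p1 : ∀ n, (¬ ∃ k, n = 2 ^ 2 ^ k) → ¬ ll a n ≤ B * n + 2 * √(n + 1) →
      ll a (n + 1) = ll a n := fun n h4 h5 => by
    have := hfo n (val a n)
    rw [show fo n (val a n) = a n by rw [ha, if_neg h4]; exact (if_neg h5).symm, ← val_succ] at this
    rw [ll, ll, le_antisymm (h3 n _ ▸ mu_le this) (mu_mono a (Nat.le_succ n))]
  have p2 : ∀ n, (¬ ∃ k, n = 2 ^ 2 ^ k) → ll a n ≤ B * n + 2 * √(n + 1) →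
      (n : ℝ) - 1 ≤ ll a n + ll a (n + 1) := fun n h4 h5 => by
    have := hbr n (val a n)
    rw [show br n (val a n) = a n by rw [ha, if_neg h4]; exact (if_pos h5).symm, ← val_succ] at this
    exact ll_jump h2 a (h1 n _) this (h3 n _).ge
  have p3 : ∀ n : ℕ, (¬ ∃ k, n = 2 ^ 2 ^ k) → B * n - 1 - 2 * √(n + 1) ≤ ll a (n + 1) :=
      fun n h4 => by
    have : (0 : ℝ) ≤ n := by positivity
    have := Real.sqrt_nonneg ((n : ℝ) + 1)
    by_cases h5 : ll a n ≤ B * n + 2 * √(n + 1)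
    · have := p2 n h4 h5
      nlinarith
    · rw [p1 n h4 h5]; linarith
  have p4 : ∀ n : ℕ, B * (n + 2 : ℕ) - 2 - 2 * √((n + 2 : ℕ) + 1) ≤ ll a (n + 2) := fun n => by
    push_cast
    by_cases h : ∃ k, n + 1 = 2 ^ 2 ^ k
    · have := p3 n fun ⟨j, hj⟩ => by
        obtain ⟨k, hk⟩ := h
        have := dvd_pow_self 2 (show 2 ^ j ≠ 0 by positivity)
        have := dvd_pow_self 2 (show 2 ^ k ≠ 0 by positivity)
        omega
      have := ll_mono h2 a (show n + 1 ≤ n + 2 by omega)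
      have := Real.sqrt_le_sqrt (show (n : ℝ) + 1 ≤ n + 2 + 1 by linarith)
      linarith
    · have := p3 (n + 1) h
      have := Real.sqrt_le_sqrt (show (n : ℝ) + 1 + 1 ≤ n + 2 + 1 by linarith)
      push_cast at *
      linarith
  have p5 : ∀ k, ∃ n ≥ k, (¬ ∃ k, n = 2 ^ 2 ^ k) ∧ ll a n ≤ B * n + 2 * √(n + 1) := fun k => by
    by_contra hc
    push Not at hc
    obtain ⟨f, hf⟩ : ∃ f, f = 2 ^ 2 ^ k := ⟨_, rfl⟩
    have f1 : k < f := hf ▸ (Nat.lt_two_pow_self.trans Nat.lt_two_pow_self)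
    have f2 : 2 ≤ f := hf ▸ le_self_pow₀ (by omega) (by positivity)
    have f3 : ∀ n, f < n → n < f * f → ∀ j, n ≠ 2 ^ 2 ^ j := fun n h4 h5 j e => by
      rw [e, hf] at h4 h5
      rw [← pow_add, ← two_mul, ← pow_succ'] at h5
      have := (Nat.pow_lt_pow_iff_right (by omega)).mp ((Nat.pow_lt_pow_iff_right (by omega)).mp h4)
      have := (Nat.pow_lt_pow_iff_right (by omega)).mp ((Nat.pow_lt_pow_iff_right (by omega)).mp h5)
      omega
    have f4 : ∀ n ≥ f + 1, n < f * f → ll a n = ll a (f + 1) := fun n hn => by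
      induction n, hn using Nat.le_induction with
      | base => exact fun _ => rfl
      | succ n hn ih =>
        intro h
        rw [p1 n (fun ⟨j, hj⟩ => f3 n (by omega) (by omega) j hj)
          (hc n (by omega) (f3 n (by omega) (by omega))).not_ge, ih (by omega)]
    obtain ⟨n, hn⟩ : ∃ n, f * f = n + 1 := Nat.exists_eq_succ_of_ne_zero (by positivity)
    have f5 : f + 1 ≤ n := by nlinarith
    have f6 := hc n (by omega) (f3 n (by omega) (by omega))
    rw [f4 n f5 (by omega), show (n : ℝ) + 1 = f * f by exact_mod_cast hn.symm,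
      Real.sqrt_mul_self (by positivity)] at f6
    have f7 := ll_le h2 a (f + 1)
    have : (2 : ℝ) ≤ f := by exact_mod_cast f2
    have : 0 ≤ B * n := by positivity
    push_cast at f7
    linarith
  have p6 : ∀ ε > 0, ∀ᶠ n : ℕ in atTop, 2 + 2 * √((n : ℝ) + 1) < ε * n := fun ε hε => by
    filter_upwards [big (2 + ε / 2 + 2 / ε) (half_pos hε)] with n hn
    have h4 := Real.mul_self_sqrt (show (0 : ℝ) ≤ n + 1 by positivity)
    have h5 : 2 * √((n : ℝ) + 1) ≤ ε / 2 * (n + 1) + 2 / ε := by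
      rw [← sub_nonneg, show ε / 2 * (n + 1) + 2 / ε - 2 * √((n : ℝ) + 1) =
        (ε * √((n : ℝ) + 1) - 2) ^ 2 / (2 * ε) by field_simp; linear_combination (-ε ^ 2) * h4]
      positivity
    linarith
  refine ⟨a, general hN a (fun u g h => ?_) B (fun ε hε => ?_) fun ε hε => ?_, fun k => ?_⟩
  · obtain ⟨n0, hn0⟩ := eventually_atTop.mp (big (2 * Real.logb N (max |u| |g| : ℤ) + 1) one_pos)
    obtain ⟨n, h4, h5, h6⟩ := p5 n0
    have k : ∀ m, ll a m ≤ Real.logb N (max |u| |g| : ℤ) := fun m =>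
      Real.logb_le_logb_of_le (by exact_mod_cast h2) (one_pos.trans_le (mu_pos h2 _ _))
        (by exact_mod_cast mu_le ⟨h.1, h.2 m⟩)
    linarith [k n, k (n + 1), p2 n h5 h6, hn0 n h4]
  · filter_upwards [p6 ε hε, eventually_ge_atTop 2] with n h4 h5
    obtain ⟨n, rfl⟩ : ∃ m, n = m + 2 := ⟨n - 2, by omega⟩
    rw [lt_div_iff₀ (by positivity)]
    linarith [p4 n]
  · refine frequently_atTop.mpr fun k => ?_
    obtain ⟨n0, hn0⟩ := eventually_atTop.mp ((p6 ε hε).and (eventually_gt_atTop 0))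
    obtain ⟨n, h4, -, h6⟩ := p5 (max k n0)
    obtain ⟨h7, h8⟩ := hn0 n (by omega)
    refine ⟨n, by omega, ?_⟩
    rw [div_lt_iff₀ (by exact_mod_cast h8)]
    linarith
  · rw [ha, if_pos ⟨k, rfl⟩]
    split_ifs with h
    · obtain ⟨j, hj, e⟩ := h
      have := Nat.pow_right_injective le_rfl (Nat.pow_right_injective le_rfl e)
      simpa [this]
    · exact ⟨fun h => absurd h (by simp), fun h' => absurd ⟨k, h', rfl⟩ h⟩

theorem counter (hN : 2 ≤ N) {P Q : ℕ} (e : N = P * Q) (c : P.Coprime Q) (hQ : 2 ≤ Q)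
    (hP : Q < P) : ∃ a : ℕ → Fin N, ¬ EvPer a ∧ ∀ B, T a ≠ Set.Icc B (1 - B) := by
  classical
  have eN : (N : ℤ) = P * Q := by exact_mod_cast e
  have c' : ∀ n, IsCoprime ((P : ℤ) ^ n) ((Q : ℤ) ^ n) := fun n =>
    (Nat.isCoprime_iff_coprime.mpr c).pow
  have st : ∀ (n : ℕ) (A : ℤ), (P : ℤ) ^ n ∣ A ∧ (Q : ℤ) ^ n ∣ A - 1 → ∃ d : Fin N,
      (P : ℤ) ^ (n + 1) ∣ A + ((d : ℕ) : ℤ) * (N : ℤ) ^ n ∧
      (Q : ℤ) ^ (n + 1) ∣ A + ((d : ℕ) : ℤ) * (N : ℤ) ^ n - 1 := fun n A h => by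
    obtain ⟨x, y, hxy⟩ := c' (n + 1)
    obtain ⟨z, hz⟩ : (P : ℤ) ^ n * Q ^ n ∣ x * P ^ (n + 1) - A := (c' n).mul_dvd
      (((pow_dvd_pow _ (Nat.le_succ n)).mul_left x).sub h.1)
      ((congrArg _ (by linear_combination -hxy)).mp
        (((pow_dvd_pow _ (show n ≤ n + 1 by omega)).mul_left (-y)).sub h.2))
    obtain ⟨d, k, hk⟩ := digit hN z
    rw [eN] at hk
    refine ⟨d, ⟨x + k * Q ^ (n + 1), ?_⟩, -y + k * P ^ (n + 1), ?_⟩ <;> rw [eN, mul_pow]
    · linear_combination -hz + (P : ℤ) ^ n * Q ^ n * hk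
    · linear_combination -hz + (P : ℤ) ^ n * Q ^ n * hk + hxy
  choose F hF using st
  obtain ⟨a, ha⟩ := build (N := N) fun n A =>
    if h : (P : ℤ) ^ n ∣ A ∧ (Q : ℤ) ^ n ∣ A - 1 then F n A h else ⟨0, by omega⟩
  have a1 : ∀ n, (P : ℤ) ^ n ∣ val a n ∧ (Q : ℤ) ^ n ∣ val a n - 1 := fun n => by
    induction n with
    | zero => simp
    | succ n ih => rw [val_succ, ha, dif_pos ih]; exact hF _ _ _
  have a2 : ∀ n ≥ 1, ∀ u g, V N n (val a n) u g → (P : ℤ) ^ n ≤ |u| := fun n hn u g h => by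
    obtain ⟨h1, h2⟩ := h
    rw [eN] at h1
    rw [eN, mul_pow] at h2
    refine Int.le_of_dvd (abs_pos.mpr ?_) ((dvd_abs _ _).mpr ?_)
    · rintro rfl
      have h3 : (Q : ℤ) ∣ g := (dvd_pow_self _ (by omega)).trans ((congrArg _ (by ring)).mp
        (((dvd_mul_left _ _).trans h2).sub ((a1 n).2.mul_left g)))
      exact not_dvd hQ h1.of_mul_right_right h3
    · exact (congrArg _ (by ring)).mp (((a1 n).1.mul_left g).sub ((dvd_mul_right _ _).trans h2))
  have n1 : (1 : ℝ) < N := by exact_mod_cast hN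
  have P0 : (0 : ℝ) < P := by exact_mod_cast (show 0 < P by omega)
  have a3 : ∀ᶠ n : ℕ in atTop, Real.logb N P ≤ ll a n / n := by
    filter_upwards [eventually_ge_atTop 1] with n hn
    obtain ⟨u, g, h1, h2⟩ := mu_spec N n (val a n)
    rw [le_div_iff₀' (by exact_mod_cast hn), ← Real.logb_pow]
    refine Real.logb_le_logb_of_le n1 (by positivity) ?_
    exact_mod_cast h2 ▸ (a2 n hn u g h1).trans (le_max_left _ _)
  have a4 : 1 / 2 < Real.logb N P := by
    have : Real.logb N N < Real.logb N (P ^ 2) := Real.logb_lt_logb n1 (by positivity)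
      (by exact_mod_cast (show N < P ^ 2 by nlinarith))
    rw [Real.logb_self_eq_one n1, Real.logb_pow] at this
    push_cast at this
    linarith
  refine ⟨a, fun h => ?_, fun B hB => ?_⟩
  · obtain ⟨u, g, h1, h2⟩ := rep_of_evper h
    have h3 := a2 (u.natAbs + 1) (by omega) u g ⟨h1, h2 _⟩
    have h4 : u.natAbs + 1 < P ^ (u.natAbs + 1) := Nat.lt_pow_self (by omega)
    have h5 := (Nat.cast_lt (α := ℤ)).mpr h4
    push_cast at h5
    omega
  · rw [T_eq hN] at hB
    obtain ⟨x, -, hx⟩ := (isCompact_Icc (a := (0 : ℝ)) (b := 1)).exists_mapClusterPt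
      (f := atTop) (u := fun n : ℕ => ll a n / n) (tendsto_principal.mpr (Eventually.of_forall
        fun n => ⟨div_nonneg (ll_nonneg hN a n) (by positivity),
          div_le_one_of_le₀ (ll_le hN a n) (by positivity)⟩))
    have h1 : x ∈ Set.Icc B (1 - B) := hB ▸ hx
    have h2 : 1 / 2 ∈ Set.Icc B (1 - B) := ⟨by linarith [h1.1, h1.2], by linarith [h1.1, h1.2]⟩
    rw [← hB, Set.mem_ofPred_eq, mapClusterPt_iff_frequently] at h2
    obtain ⟨n, h3, h4⟩ := ((h2 _ (Iio_mem_nhds a4)).and_eventually a3).exists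
    exact h4.not_gt h3

/-- Assertions (a) and (b) both hold exactly when `N` is a prime power. -/
theorem result (N : ℕ) (hN : 2 ≤ N) :
    ((∀ a : ℕ → Fin N, ¬ EvPer a → ∃ B : ℝ, T a = Set.Icc B (1 - B)) ∧
      ∀ B ∈ Set.Icc (0 : ℝ) (1 / 2), ¬ {a : ℕ → Fin N | T a = Set.Icc B (1 - B)}.Countable) ↔
    IsPrimePow N := by
  refine ⟨fun h => ?_, fun h => ⟨fun a ha => ⟨liminf (fun n : ℕ => ll a n / n) atTop,
    general h a (fun u g hr => ha (evper_of_rep hN hr)) _ (fun ε hε => ?_) fun ε hε => ?_⟩,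
    fun B hB hc => ?_⟩⟩
  · by_contra hp
    obtain ⟨j, Q, h1, h2⟩ := Nat.exists_eq_pow_mul_and_not_dvd (n := N) (by omega) N.minFac
      (Nat.minFac_prime (by omega)).ne_one
    have pp := Nat.minFac_prime (show N ≠ 1 by omega)
    have j0 : j ≠ 0 := by
      rintro rfl
      exact h1 (by simpa [← (by simpa using h2 : N = Q)] using Nat.minFac_dvd N)
    have Q1 : Q ≠ 1 := by
      rintro rfl
      exact hp ((isPrimePow_nat_iff N).mpr ⟨_, j, pp, by omega, by simpa using h2.symm⟩)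
    have Q0 : Q ≠ 0 := by rintro rfl; omega
    have c : (N.minFac ^ j).Coprime Q := ((Nat.Prime.coprime_iff_not_dvd pp).mpr h1).pow_left j
    have P2 : 2 ≤ N.minFac ^ j := pp.two_le.trans (le_self_pow₀ pp.one_le j0)
    generalize N.minFac ^ j = P at h2 c P2
    rcases lt_trichotomy P Q with h3 | rfl | h3
    · obtain ⟨a, a1, a2⟩ := counter hN (h2.trans (mul_comm _ _)) c.symm P2 h3
      obtain ⟨B, hB⟩ := h.1 a a1
      exact a2 B hB
    · exact Q1 ((Nat.coprime_self _).mp c)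
    · obtain ⟨a, a1, a2⟩ := counter hN h2 c (by omega) h3
      obtain ⟨B, hB⟩ := h.1 a a1
      exact a2 B hB
  · exact eventually_lt_of_lt_liminf (by linarith) ⟨0, eventually_map.mpr
      (Eventually.of_forall fun n => div_nonneg (ll_nonneg hN a n) (by positivity))⟩
  · exact frequently_lt_of_liminf_lt (isCoboundedUnder_ge_of_le atTop (x := 1) fun n =>
      div_le_one_of_le₀ (ll_le hN a n) (by positivity)) (by linarith)
  · choose F h1 h2 using construct h hB.1 hB.2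
    have inj : Function.Injective F := fun s t e => Set.ext fun k => by rw [← h2, ← h2, e]
    have := hc.preimage inj
    rw [show F ⁻¹' {a | T a = Set.Icc B (1 - B)} = Set.univ from Set.eq_univ_of_forall h1,
      Set.countable_univ_iff] at this
    obtain ⟨f, hf⟩ := exists_surjective_nat (Set ℕ)
    exact Function.cantor_surjective f hf

end Pool.Agent.Results.MP_8b2777_lc.PrimePowers
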